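import Pool.Agent.LC5.Stmts

/-!
# Squad LC5, row BBC
-/

set_option autoImplicit false

namespace Pool.Agent.LC5.H49

open Pool.Agent.LCK Pool.Agent.LC5

theorem bbc : BBCStmt := by
  rintro v ⟨-, a, b, c, x, y, z, h5, h0, ha, hb, habc, hy, hz, hyx, hc, hlast⟩
  have hσ : 0 < 1 - c := by linarith
  have hσ1 : 1 < 1 - c := by linarith
  have hd : 0 < b * (x + z) + y * (1 - c - a) := by linarith
  have hd1 : b < b * (x + z) + y * (1 - c - a) := hlast
  set D : ℝ := b * (x + z) + y * (1 - c - a) with hD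
  refine ⟨1 - b / (1 - c) - a / (1 - c), b / (1 - c), a / (1 - c), (b / D) * y * (1 - c) / b,
    (b / D) * (x - y * a / b), (b / D) * z, 1 / (1 - c), b / D, ?_⟩
  have hx : 0 < x - y * a / b := by
    rw [sub_pos, div_lt_iff₀ hb]
    exact hyx
  have hsum : (b / D) * y * (1 - c) / b + (b / D) * (x - y * a / b) + (b / D) * z = 1 := by
    have : D ≠ 0 := hd.ne'
    field_simp
    rw [hD]
    ring
  have e1 : (1 - b / (1 - c) - a / (1 - c)) • v 1 + (b / (1 - c)) • v 2 + (a / (1 - c)) • v 3 =
      pt v (a / (1 - c), b / (1 - c), 0) := by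
    simp only [pt]
    module
  have e2 : (1 - 1 / (1 - c)) • v 4 + (1 / (1 - c)) • v 5 =
      pt v (a / (1 - c), b / (1 - c), 0) := by
    rw [h5]
    have e3 : (1 / (1 - c)) * (1 - c) = 1 := by field_simp
    have e4 : (1 / (1 - c)) * c = 1 / (1 - c) - 1 := by
      linear_combination -e3
    have e5 : (1 - 1 / (1 - c)) • v 4 + (1 / (1 - c)) • pt v (a, b, c) =
        pt v ((1 / (1 - c)) * a, (1 / (1 - c)) * b, 1 - 1 / (1 - c) + (1 / (1 - c)) * c) := by
      simp only [pt]
      module
    rw [e5, e4]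
    congr 1
    refine Prod.ext ?_ (Prod.ext ?_ ?_)
    · simp only; ring
    · simp only; ring
    · simp only; ring
  refine ⟨⟨?_, by positivity, by positivity, by ring⟩, ⟨by positivity, ?_, by positivity, hsum⟩,
    ⟨by positivity, ?_⟩, ⟨by positivity, ?_⟩, ?_, ?_⟩
  · have : b / (1 - c) + a / (1 - c) ≤ 1 := by
      rw [← add_div, div_le_one hσ]
      linarith
    linarith
  · have : 0 < b / D := by positivity
    positivity
  · rw [div_le_one hσ]
    linarith
  · rw [div_le_one hd]
    linarith
  · rw [e1, e2]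
  · rw [e1, h0]
    have f1 : ((b / D) * y * (1 - c) / b) * (a / (1 - c)) + (b / D) * (x - y * a / b) =
        (b / D) * x := by
      have : D ≠ 0 := hd.ne'
      field_simp
      ring
    have f2 : ((b / D) * y * (1 - c) / b) * (b / (1 - c)) = (b / D) * y := by
      have : D ≠ 0 := hd.ne'
      field_simp
    have f3 : (b / D * y * (1 - c) / b) • pt v (a / (1 - c), b / (1 - c), 0) +
        (b / D * (x - y * a / b)) • v 3 + (b / D * z) • v 4 =
        ((b / D * y * (1 - c) / b) + (b / D * (x - y * a / b)) + (b / D * z)) • v 1 +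
        ((((b / D) * y * (1 - c) / b) * (a / (1 - c)) + (b / D) * (x - y * a / b)) • (v 3 - v 1) +
        (((b / D) * y * (1 - c) / b) * (b / (1 - c))) • (v 2 - v 1) +
        (b / D * z) • (v 4 - v 1)) := by
      simp only [pt]
      module
    rw [f3, f1, f2, hsum]
    simp only [pt]
    module

end Pool.Agent.LC5.H49
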