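import Pool.Agent.LC5.Stmts

/-!
# Squad LC5, row GSI
-/

set_option autoImplicit false

namespace Pool.Agent.LC5.H49

open Pool.Agent.LCK Pool.Agent.LC5

theorem dj_of_det {a b c d : E3} (h : det3 (b - a) (c - a) (d - a) ≠ 0) : Dj a b c d := by
  unfold Dj
  rw [Set.eq_empty_iff_forall_notMem]
  rintro p ⟨hp, hq⟩
  rw [segment_eq_image'] at hp hq
  obtain ⟨s, -, hs⟩ := hp
  obtain ⟨t, -, ht⟩ := hq
  simp only at hs ht
  have e : ∀ i : Fin 3, a i + s * (b i - a i) = c i + t * (d i - c i) := by
    intro i
    have := congrArg (fun z : E3 => z i) (hs.trans ht.symm)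
    simpa using this
  have e0 := e 0
  have e1 := e 1
  have e2 := e 2
  simp only [det3, PiLp.sub_apply] at h
  have h1 : (1 - t) = 0 := by
    by_contra hne
    apply h
    apply mul_left_cancel₀ hne
    linear_combination ((b 1 - a 1) * (d 2 - a 2) - (b 2 - a 2) * (d 1 - a 1)) * e0 +
      (-((b 0 - a 0) * (d 2 - a 2)) + (b 2 - a 2) * (d 0 - a 0)) * e1 +
      ((b 0 - a 0) * (d 1 - a 1) - (b 1 - a 1) * (d 0 - a 0)) * e2
  have h2 : t = 0 := by
    by_contra hne
    apply h
    apply mul_left_cancel₀ hne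
    linear_combination (-((b 1 - a 1) * (c 2 - a 2)) + (b 2 - a 2) * (c 1 - a 1)) * e0 +
      (((b 0 - a 0) * (c 2 - a 2)) - (b 2 - a 2) * (c 0 - a 0)) * e1 +
      (-((b 0 - a 0) * (c 1 - a 1)) + (b 1 - a 1) * (c 0 - a 0)) * e2
  linarith

theorem hi_of_det {a b c : E3} (w : E3) (h : det3 (a - b) (c - b) w ≠ 0) : Hi a b c := by
  unfold Hi
  apply Set.Subset.antisymm
  · rintro p ⟨hp, hq⟩
    rw [segment_symm, segment_eq_image'] at hp
    rw [segment_eq_image'] at hq
    obtain ⟨s, -, hs⟩ := hp
    obtain ⟨t, -, ht⟩ := hq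
    simp only at hs ht
    have e : ∀ i : Fin 3, b i + s * (a i - b i) = b i + t * (c i - b i) := by
      intro i
      have := congrArg (fun z : E3 => z i) (hs.trans ht.symm)
      simpa using this
    have e0 := e 0
    have e1 := e 1
    have e2 := e 2
    simp only [det3, PiLp.sub_apply] at h
    have h1 : s = 0 := by
      by_contra hne
      apply h
      apply mul_left_cancel₀ hne
      linear_combination ((c 1 - b 1) * w 2 - (c 2 - b 2) * w 1) * e0 +
        (-((c 0 - b 0) * w 2) + (c 2 - b 2) * w 0) * e1 +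
        ((c 0 - b 0) * w 1 - (c 1 - b 1) * w 0) * e2
    rw [h1] at hs
    simp only [zero_smul, add_zero] at hs
    exact hs.symm
  · rintro p hp
    rw [Set.mem_singleton_iff] at hp
    rw [hp]
    exact ⟨right_mem_segment ℝ a b, left_mem_segment ℝ b c⟩

theorem gsi (sm6 : SM6Stmt) : GSIStmt := by
  rintro v ⟨g1, g2, g3, g4, g5, g6, g7⟩
  rw [sm6.1 v]
  unfold dt at g1
  refine ⟨hi_of_det (v 3 - v 1) ?_, hi_of_det (v 4 - v 1) ?_, hi_of_det (v 3 - v 1) ?_,
    hi_of_det (v 4 - v 2) ?_, ?_, ?_, ?_, ?_, ?_, ?_⟩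
  · intro h
    apply g3
    simp only [det3, PiLp.sub_apply] at h ⊢
    linear_combination -h
  · intro h
    apply g1
    simp only [det3, PiLp.sub_apply] at h ⊢
    linear_combination h
  · intro h
    apply g1
    simp only [det3, PiLp.sub_apply] at h ⊢
    linear_combination h
  · intro h
    apply g7
    simp only [det3, PiLp.sub_apply] at h ⊢
    linear_combination -h
  · have : Dj (v 1) (v 0) (v 2) (v 3) := by
      apply dj_of_det
      intro h
      apply g3
      simp only [det3, PiLp.sub_apply] at h ⊢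
      linear_combination -h
    unfold Dj at this ⊢
    rwa [segment_symm ℝ (v 0) (v 1)]
  · have : Dj (v 1) (v 0) (v 3) (v 4) := by
      apply dj_of_det
      intro h
      apply g2
      simp only [det3, PiLp.sub_apply] at h ⊢
      linear_combination -h
    unfold Dj at this ⊢
    rwa [segment_symm ℝ (v 0) (v 1)]
  · have : Dj (v 1) (v 0) (v 4) (v 5) := by
      apply dj_of_det
      intro h
      apply g6
      simp only [det3, PiLp.sub_apply] at h ⊢
      linear_combination -h
    unfold Dj at this ⊢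
    rwa [segment_symm ℝ (v 0) (v 1)]
  · apply dj_of_det
    intro h
    apply g1
    simp only [det3, PiLp.sub_apply] at h ⊢
    linear_combination -h
  · apply dj_of_det
    intro h
    apply g4
    simp only [det3, PiLp.sub_apply] at h ⊢
    linear_combination h
  · apply dj_of_det
    intro h
    apply g7
    simp only [det3, PiLp.sub_apply] at h ⊢
    linear_combination h

end Pool.Agent.LC5.H49
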