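import Pool.Agent.Helper49_LC5.U5

/-!
# Squad LC5, row U4
-/

set_option autoImplicit false

namespace Pool.Agent.LC5.H49

open Pool.Agent.LCK Pool.Agent.LC5

theorem last_notMem (l : Fin 4 → ℝ) (hl : ∀ k, 0 < l k) (v : Fin 5 → E3) (hv : v ∈ Conf l)
    (i : Fin 3) : v 4 ∉ segment ℝ (v i.castSucc.castSucc) (v i.castSucc.succ) := by
  intro hmem
  have hd : dist (v 3) (v 4) = l 3 := hv.1 3
  have hne : v 4 ≠ v 3 := by
    intro h
    rw [h, dist_self] at hd
    exact absurd hd (hl 3).ne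
  have hlt : (i.castSucc : Fin 4) < 3 := by
    rw [Fin.lt_def]
    exact i.2
  have hs := hv.2 i.castSucc 3 hlt
  have h4 : v 4 ∈ segment ℝ (v i.castSucc.castSucc) (v i.castSucc.succ) ∩
      segment ℝ (v (3 : Fin 4).castSucc) (v (3 : Fin 4).succ) :=
    ⟨hmem, right_mem_segment ℝ _ _⟩
  rw [hs] at h4
  split_ifs at h4 with h
  · have hi : i = 2 := by
      apply Fin.ext
      have h1 : ((3 : Fin 4) : ℕ) = 3 := rfl
      rw [h1] at h
      have h2 : ((i.castSucc : Fin 4) : ℕ) = (i : ℕ) := rfl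
      have h3 : ((2 : Fin 3) : ℕ) = 2 := rfl
      omega
    subst hi
    exact hne h4
  · exact h4

theorem exists_eps (l : Fin 4 → ℝ) (hl : ∀ k, 0 < l k) (v : Fin 5 → E3) (hv : v ∈ Conf l) :
    ∃ e : ℝ, 0 < e ∧ ∀ i : Fin 3, ∀ z ∈ segment ℝ (v i.castSucc.castSucc) (v i.castSucc.succ),
      e < dist (v (Fin.last 4)) z := by
  have key : ∀ i : Fin 3, 0 < Metric.infDist (v 4)
      (segment ℝ (v i.castSucc.castSucc) (v i.castSucc.succ)) := by
    intro i
    have hc : IsClosed (segment ℝ (v i.castSucc.castSucc) (v i.castSucc.succ)) := by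
      rw [segment_eq_image]
      exact (isCompact_Icc.image (by fun_prop)).isClosed
    exact (hc.notMem_iff_infDist_pos ⟨_, left_mem_segment ℝ _ _⟩).mp (last_notMem l hl v hv i)
  obtain ⟨i₀, hi₀⟩ := Finite.exists_min (fun i : Fin 3 => Metric.infDist (v 4)
      (segment ℝ (v i.castSucc.castSucc) (v i.castSucc.succ)))
  refine ⟨_, half_pos (key i₀), fun i z hz => ?_⟩
  have h1 : Metric.infDist (v 4) (segment ℝ (v i.castSucc.castSucc) (v i.castSucc.succ)) ≤
      dist (v 4) z := Metric.infDist_le_dist_of_mem hz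
  exact lt_of_lt_of_le (half_lt_self (key i₀)) ((hi₀ i).trans h1)

theorem u4 (snc : SNCStmt) (fib : FIBStmt) (crd : CRDStmt) (ge4 : GE4Stmt) (fbr : FBRStmt)
    (trn : TRNStmt) (mrg : MRGStmt) (u3 : U3Stmt) : U4Stmt := by
  intro l hl
  refine mrg 2 l hl ?_ ?_
  · intro v₀ hv₀
    obtain ⟨v, hv, hj, g1, g2, g3⟩ := ge4 l hl v₀ hv₀
    obtain ⟨snc1, snc2, -, -⟩ := snc 4
    obtain ⟨e, he, hfar⟩ := exists_eps l hl v hv
    have hok := (fib 3 l hl v hv e he hfar).2
    set x₅ : E3 := v (Fin.last 4) + (e / l (Fin.last 3)) •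
      (v (Fin.last 4) - v (Fin.last 3).castSucc) with hx₅
    have hl3 : (0 : ℝ) < l 3 := hl 3
    have hd : dist (v (Fin.last 4)) x₅ = e := by
      have h1 : dist (v (Fin.last 3).castSucc) (v (Fin.last 4)) = l (Fin.last 3) := hv.1 3
      rw [hx₅, dist_comm, dist_eq_norm, add_sub_cancel_left, norm_smul, ← dist_eq_norm,
        dist_comm, h1, Real.norm_of_nonneg (div_nonneg he.le (hl _).le)]
      exact div_mul_cancel₀ _ (hl _).ne'
    set w : Fin 6 → E3 := av v x₅ with hw
    have hwc : w ∈ Conf (ap l e) := (snc1 l e v x₅).mpr ⟨hv, hd, hok⟩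
    have w0 : w 0 = v 0 := rfl
    have w1 : w 1 = v 1 := rfl
    have w2 : w 2 = v 2 := rfl
    have w3 : w 3 = v 3 := rfl
    have w4 : w 4 = v 4 := rfl
    have w5 : w 5 = x₅ := rfl
    have hdt : dt w ≠ 0 := g1
    obtain ⟨x, y, z, h0, h0'⟩ := coords crd w hdt (w 0)
    set k : ℝ := e / l 3 with hk
    have hkpos : 0 < k := div_pos he hl3
    have h54 : w 5 - w 4 = (-k) • (w 3 - w 1) + (0 : ℝ) • (w 2 - w 1) + k • (w 4 - w 1) := by
      have h1 : w 5 = v 4 + k • (v 4 - v 3) := rfl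
      rw [h1, w1, w2, w3, w4]
      module
    have hy : y ≠ 0 := by
      intro h
      apply g2
      have h1 : v 0 - v 1 = x • (v 3 - v 1) + y • (v 2 - v 1) + z • (v 4 - v 1) := h0'
      rw [h1, d2, h, zero_mul]
    have hz : z ≠ 0 := by
      intro h
      apply g3
      have h1 : v 0 - v 1 = x • (v 3 - v 1) + y • (v 2 - v 1) + z • (v 4 - v 1) := h0'
      rw [h1, d5, h, zero_mul]
    have hap : ∀ j, 0 < ap l e j := by
      intro j
      induction j using Fin.lastCases with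
      | last => unfold ap; rw [Fin.snoc_last]; exact he
      | cast i => unfold ap; rw [Fin.snoc_castSucc]; exact hl i
    have hfr : JoinedIn (Fr (-k) 0 k) (x, y, z) (0, -1, 0) := by
      refine fbr _ _ _ x y z ?_ ?_ hy hz ?_ ?_
      · exact neg_ne_zero.mpr hkpos.ne'
      · exact hkpos.ne'
      · rw [mul_zero]
        exact (mul_ne_zero hy (neg_ne_zero.mpr hkpos.ne')).symm
      · rintro ⟨h, -⟩
        linarith
    obtain ⟨w', hw', hjw, hs⟩ := straight_of_joined
      (trn (ap l e) hap w hwc hdt _ _ _ x y z h54 h0 hfr)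
    have hF : Continuous (fun (u : Fin 6 → E3) (i : Fin 5) => u i.castSucc) :=
      continuous_pi fun i => continuous_apply i.castSucc
    have hmap : ∀ u ∈ Conf (ap l e), (fun i : Fin 5 => u i.castSucc) ∈ Conf l := by
      intro u hu
      rw [← snc2 u] at hu
      exact ((snc1 l e _ _).mp hu).1
    have h1 := (hjw.map_continuousOn hF.continuousOn).mono
      (V := Conf l) (by rintro _ ⟨u, hu, rfl⟩; exact hmap u hu)
    have h2 : (fun i : Fin 5 => w i.castSucc) = v := by
      funext i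
      rw [hw]
      unfold av
      rw [Fin.snoc_castSucc]
    rw [h2] at h1
    exact ⟨_, hmap w' hw', hj.trans h1, hs⟩
  · apply u3
    intro k
    refine Fin.cases ?_ (fun i => ?_) k
    · simp only [mg, Fin.cons_zero]
      exact add_pos (hl 0) (hl 1)
    · simp only [mg, Fin.cons_succ]
      exact hl _

end Pool.Agent.LC5.H49
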