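import Pool.Agent.LC5.Stmts

/-!
# Squad LC5, rows U4 and U5
-/

set_option autoImplicit false

namespace Pool.Agent.LC5.H49

open Pool.Agent.LCK Pool.Agent.LC5

section Det

variable (A B P : E3)

theorem d4 (a b c : ℝ) : det3 (a • A + b • B + c • P) B P = a * det3 A B P := by
  simp only [det3, PiLp.add_apply, PiLp.smul_apply, smul_eq_mul]
  ring

theorem d5 (a b c : ℝ) : det3 A B (a • A + b • B + c • P) = c * det3 A B P := by
  simp only [det3, PiLp.add_apply, PiLp.smul_apply, smul_eq_mul]
  ring

theorem d2 (a b c : ℝ) : det3 A (a • A + b • B + c • P) P = b * det3 A B P := by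
  simp only [det3, PiLp.add_apply, PiLp.smul_apply, smul_eq_mul]
  ring

theorem d6 (x y z a b c : ℝ) : det3 (x • A + y • B + z • P) (a • A + b • B + c • P) P =
    (x * b - y * a) * det3 A B P := by
  simp only [det3, PiLp.add_apply, PiLp.smul_apply, smul_eq_mul]
  ring

theorem d7 (a b c : ℝ) : det3 (A - B) (P - B) (a • A + b • B + c • P) =
    -(a + b + c) * det3 A B P := by
  simp only [det3, PiLp.add_apply, PiLp.sub_apply, PiLp.smul_apply, smul_eq_mul]
  ring

end Det

theorem dt_upd0 (v : Fin 6 → E3) (X : E3) : dt (Function.update v 0 X) = dt v := by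
  simp [dt, Function.update]

theorem dt_upd5 (v : Fin 6 → E3) (X : E3) : dt (Function.update v 5 X) = dt v := by
  simp [dt, Function.update]

theorem pt_upd5 (v : Fin 6 → E3) (X : E3) (p : ℝ × ℝ × ℝ) :
    pt (Function.update v 5 X) p = pt v p := by
  simp [pt, Function.update]

theorem straight_of_joined {l : Fin 5 → ℝ} {v : Fin 6 → E3}
    (h : JoinedIn (Conf l) v (Function.update v 0 (v 1 - (l 0 / l 1) • (v 2 - v 1)))) :
    ∃ v' ∈ Conf l, JoinedIn (Conf l) v v' ∧ v' 0 = v' 1 - (l 0 / l 1) • (v' 2 - v' 1) := by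
  refine ⟨_, h.target_mem, h, ?_⟩
  simp [Function.update]

theorem coords (crd : CRDStmt) (v : Fin 6 → E3) (h : dt v ≠ 0) (X : E3) :
    ∃ x y z : ℝ, X = pt v (x, y, z) ∧
      X - v 1 = x • (v 3 - v 1) + y • (v 2 - v 1) + z • (v 4 - v 1) := by
  have := (crd v h).1 X
  refine ⟨(LC5.crd v X).1, (LC5.crd v X).2.1, (LC5.crd v X).2.2, this.symm, ?_⟩
  conv_lhs => rw [← this]
  simp only [pt]
  module

theorem u5 (crd : CRDStmt) (ge5 : GE5Stmt) (fbr : FBRStmt) (trn : TRNStmt) (alp : ALPStmt)
    (bpa : BPAStmt) (bet : BETStmt) (mrg : MRGStmt) (u4 : U4Stmt) : U5Stmt := by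
  intro l hl hS
  refine mrg 3 l hl ?_ ?_
  · intro v₀ hv₀
    obtain ⟨v, hv, hj, g1, g2, g3, g4, g5, g6, g7⟩ := ge5 l hl v₀ hv₀
    suffices h : ∃ v' ∈ Conf l, JoinedIn (Conf l) v v' ∧
        v' 0 = v' 1 - (l 0 / l 1) • (v' 2 - v' 1) by
      obtain ⟨v', hv', hj', he⟩ := h
      exact ⟨v', hv', hj.trans hj', he⟩
    obtain ⟨x, y, z, h0, h0'⟩ := coords crd v g1 (v 0)
    obtain ⟨a, b, c', h5, h5'⟩ := coords crd v g1 (v 5)
    have h54 : v 5 - v 4 = a • (v 3 - v 1) + b • (v 2 - v 1) + (c' - 1) • (v 4 - v 1) := by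
      rw [h5]
      simp only [pt]
      module
    set c : ℝ := c' - 1 with hc
    have ha : a ≠ 0 := by
      intro h
      apply g4
      rw [h54, d4, h, zero_mul]
    have hcne : c ≠ 0 := by
      intro h
      apply g5
      rw [h54, d5, h, zero_mul]
    have hy : y ≠ 0 := by
      intro h
      apply g2
      rw [h0', d2, h, zero_mul]
    have hz : z ≠ 0 := by
      intro h
      apply g3
      rw [h0', d5, h, zero_mul]
    have hxy : x * b ≠ y * a := by
      intro h
      apply g6
      rw [h0', h54, d6, h, sub_self, zero_mul]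
    have habc : a + b + c ≠ 0 := by
      intro h
      apply g7
      have e1 : v 3 - v 2 = (v 3 - v 1) - (v 2 - v 1) := by abel
      have e2 : v 4 - v 2 = (v 4 - v 1) - (v 2 - v 1) := by abel
      rw [h54, e1, e2, d7, h, neg_zero, zero_mul]
    by_cases hbad : 0 < a ∧ 0 < b ∧ c < 0 ∧ 0 < y ∧ 0 < z ∧ y * a < x * b
    · obtain ⟨ha', hb', hc', hy', hz', hlt⟩ := hbad
      have hx' : 0 < x := by
        have h1 : 0 < x * b := lt_trans (mul_pos hy' ha') hlt
        exact (mul_pos_iff_of_pos_right hb').mp h1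
      rcases lt_or_gt_of_ne habc with hneg | hpos
      · have hb : BRay v := ⟨g1, a, b, c + 1, x, y, z, by rw [h5, hc, sub_add_cancel], h0, ha',
          hb', by linarith, hy', hz', hlt⟩
        obtain ⟨v', hv', hj', hb'', hd⟩ := bpa l hl hS v hv hb
        obtain ⟨w, hw, hjw, he⟩ := straight_of_joined (bet l hl v' hv' hb'' hd)
        exact ⟨w, hw, hj'.trans hjw, he⟩
      · obtain ⟨k, hk, hjk⟩ := alp l hl v hv g1 a b c x y z h54 h0 ha' hb' hc' hpos hy' hz' hlt
        set v' := Function.update v 5 (v 4 +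
          ((k * (-a)) • (v 3 - v 1) + (k * (b + 2 * a)) • (v 2 - v 1) + (k * c) • (v 4 - v 1)))
          with hv'def
        have hv' : v' ∈ Conf l := hjk.target_mem
        have hdt : dt v' ≠ 0 := by rw [hv'def, dt_upd5]; exact g1
        have e0 : v' 0 = v 0 := by simp [hv'def, Function.update]
        have e1 : v' 1 = v 1 := by simp [hv'def, Function.update]
        have e2 : v' 2 = v 2 := by simp [hv'def, Function.update]
        have e3 : v' 3 = v 3 := by simp [hv'def, Function.update]
        have e4 : v' 4 = v 4 := by simp [hv'def, Function.update]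
        have e5 : v' 5 = v 4 + ((k * (-a)) • (v 3 - v 1) + (k * (b + 2 * a)) • (v 2 - v 1) +
            (k * c) • (v 4 - v 1)) := by simp [hv'def]
        have h54' : v' 5 - v' 4 = (k * (-a)) • (v' 3 - v' 1) + (k * (b + 2 * a)) • (v' 2 - v' 1) +
            (k * c) • (v' 4 - v' 1) := by
          rw [e5, e1, e2, e3, e4]
          abel
        have h0'' : v' 0 = pt v' (x, y, z) := by
          rw [e0, hv'def, pt_upd5]
          exact h0
        have hfr : JoinedIn (Fr (k * (-a)) (k * (b + 2 * a)) (k * c)) (x, y, z) (0, -1, 0) := by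
          refine fbr _ _ _ x y z ?_ ?_ hy hz ?_ ?_
          · exact mul_ne_zero hk.ne' (neg_ne_zero.mpr ha)
          · exact mul_ne_zero hk.ne' hcne
          · have h1 : 0 < x * (k * (b + 2 * a)) := by positivity
            have h2 : y * (k * (-a)) < 0 := by
              have : 0 < y * (k * a) := by positivity
              linarith
            intro h3
            linarith
          · rintro ⟨h, -⟩
            have : 0 < k * a := by positivity
            linarith
        obtain ⟨w, hw, hjw, he⟩ := straight_of_joined (trn l hl v' hv' hdt _ _ _ x y z h54' h0'' hfr)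
        exact ⟨w, hw, hjk.trans hjw, he⟩
    · exact straight_of_joined (trn l hl v hv g1 a b c x y z h54 h0
        (fbr a b c x y z ha hcne hy hz hxy hbad))
  · apply u4
    intro k
    refine Fin.cases ?_ (fun i => ?_) k
    · simp only [mg, Fin.cons_zero]
      exact add_pos (hl 0) (hl 1)
    · simp only [mg, Fin.cons_succ]
      exact hl _

end Pool.Agent.LC5.H49
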